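import Pool.Agent.H25.Inter

set_option autoImplicit false

namespace Pool.Agent.Results.MP_648063_co.Lower

open Pool.Agent.H25.Inter

/-- For a connected graph with `n` vertices, `m` edges and cyclomatic number `ν = m - n + 1`,
written `2ν = q(n-1) + r`, the intersection number is at least `(n-1) C(q,2) + q r`. -/
theorem result (V : Type) [Finite V] (H : SimpleGraph V) (hH : H.Connected) (n m ν q r : ℕ)
    (hn : Nat.card V = n) (hm : H.edgeSet.ncard = m) (hν : ν + n = m + 1)
    (hq : 2 * ν = q * (n - 1) + r) :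
    (n - 1) * q.choose 2 + q * r ≤ inter H := by
  subst hn hm
  obtain ⟨T, h1, h2⟩ := hH.exists_isTree_le
  refine le_csInf ⟨_, T, h1, h2, rfl⟩ ?_
  rintro k ⟨T, h1, h2, rfl⟩
  exact interT_ge h1 h2 q r (by omega)

end Pool.Agent.Results.MP_648063_co.Lower
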